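import Pool.Agent.Results.MP_1ce445_co.HalvedProductBound

/-!
# MP_1ce445_co: `P(n,3) ~ n³/27`
-/

set_option autoImplicit false

namespace Pool.Agent.Results.MP_1ce445_co.ThreeFactorsLimit

open Pool.Agent.Results.MP_1ce445_co.HalvedProductBound
open Finset

/-- the degree -/
noncomputable def dg {n : ℕ} (G : SimpleGraph (Fin n)) (v : Fin n) : ℝ := by
  classical
  exact ((univ.filter fun w => G.Adj v w).card : ℝ)

/-- the vertices of small degree -/
noncomputable def low {n : ℕ} (G : SimpleGraph (Fin n)) (δ : ℝ) : Finset (Fin n) := by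
  classical
  exact univ.filter fun v => dg G v < δ * n

theorem mem_low {n : ℕ} (G : SimpleGraph (Fin n)) (δ : ℝ) (v : Fin n) :
    v ∈ low G δ ↔ dg G v < δ * n := by
  classical
  unfold low
  rw [mem_filter]
  exact ⟨fun h => h.2, fun h => ⟨mem_univ _, h⟩⟩

theorem greedy {n : ℕ} (hn : 0 < n) (G : SimpleGraph (Fin n)) (H : Finset (Fin n)) (δ : ℝ)
    (hδ1 : δ ≤ 1) (hH : ∀ v ∈ H, δ * n ≤ dg G v) (m : ℕ) :
    ∃ A U : Finset (Fin n), A.card ≤ m ∧ U ⊆ H ∧ (∀ v ∈ H, v ∉ U → ∃ a ∈ A, G.Adj a v) ∧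
      (U.card : ℝ) ≤ (1 - δ) ^ m * n := by
  classical
  induction m with
  | zero =>
    refine ⟨∅, H, by simp, Subset.refl _, fun v h1 h2 => absurd h1 h2, ?_⟩
    rw [pow_zero, one_mul]
    have := card_le_univ H
    rw [Fintype.card_fin] at this
    exact_mod_cast this
  | succ m ih =>
    obtain ⟨A, U, hA, hU, hdom, hc⟩ := ih
    have hex : ∃ a : Fin n, δ * (U.card : ℝ) ≤ ((U.filter fun u => G.Adj a u).card : ℝ) := by
      by_contra hne
      push Not at hne
      have h1 : ∑ a : Fin n, ((U.filter fun u => G.Adj a u).card : ℝ) <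
          ∑ a : Fin n, δ * (U.card : ℝ) :=
        sum_lt_sum_of_nonempty ⟨⟨0, hn⟩, mem_univ _⟩ fun a _ => hne a
      rw [sum_const, card_univ, Fintype.card_fin, nsmul_eq_mul] at h1
      have h2 : ∑ a : Fin n, ((U.filter fun u => G.Adj a u).card : ℝ) = ∑ u ∈ U, dg G u := by
        have h3 : ∀ a : Fin n, ((U.filter fun u => G.Adj a u).card : ℝ) =
            ∑ u ∈ U, if G.Adj a u then (1 : ℝ) else 0 := by
          intro a
          rw [card_filter]
          push_cast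
          rfl
        simp_rw [h3]
        rw [sum_comm]
        apply sum_congr rfl
        intro u _
        unfold dg
        rw [card_filter]
        push_cast
        apply sum_congr rfl
        intro a _
        by_cases h : G.Adj a u
        · rw [if_pos h, if_pos h.symm]
        · rw [if_neg h, if_neg fun h' => h h'.symm]
      have h4 : ∑ u ∈ U, δ * (n : ℝ) ≤ ∑ u ∈ U, dg G u := sum_le_sum fun u hu => hH u (hU hu)
      rw [sum_const, nsmul_eq_mul] at h4
      rw [h2] at h1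
      nlinarith
    obtain ⟨a, ha⟩ := hex
    refine ⟨insert a A, U.filter fun u => ¬ G.Adj a u, (card_insert_le _ _).trans (by omega),
      (filter_subset _ _).trans hU, ?_, ?_⟩
    · intro v hv hvU
      by_cases hvu : v ∈ U
      · by_cases hav : G.Adj a v
        · exact ⟨a, mem_insert_self _ _, hav⟩
        · exact absurd (mem_filter.mpr ⟨hvu, hav⟩) hvU
      · obtain ⟨b, hb, hbv⟩ := hdom v hv hvu
        exact ⟨b, mem_insert_of_mem hb, hbv⟩
    · have h5 : (U.filter fun u => G.Adj a u).card + (U.filter fun u => ¬ G.Adj a u).card =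
          U.card := card_filter_add_card_filter_not _
      have h6 : ((U.filter fun u => G.Adj a u).card : ℝ) +
          ((U.filter fun u => ¬ G.Adj a u).card : ℝ) = U.card := by exact_mod_cast h5
      have h7 : ((U.filter fun u => ¬ G.Adj a u).card : ℝ) ≤ (1 - δ) * U.card := by linarith
      calc ((U.filter fun u => ¬ G.Adj a u).card : ℝ) ≤ (1 - δ) * U.card := h7
        _ ≤ (1 - δ) * ((1 - δ) ^ m * n) := mul_le_mul_of_nonneg_left hc (by linarith)
        _ = (1 - δ) ^ (m + 1) * n := by ring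

theorem gamma_le_low {n : ℕ} (hn : 0 < n) (G : SimpleGraph (Fin n)) (hG : ∀ v, ∃ w, G.Adj v w)
    (δ : ℝ) (hδ1 : δ ≤ 1) (m : ℕ) :
    (gammaT G : ℝ) ≤ m + ((low G δ).card : ℝ) + (1 - δ) ^ m * n := by
  classical
  obtain ⟨A, U, hA, hU, hdom, hc⟩ := greedy hn G (univ \ low G δ) δ hδ1 (fun v hv => by
    have h1 : v ∉ low G δ := (mem_sdiff.mp hv).2
    rw [mem_low, not_lt] at h1
    exact h1) m
  have h1 := gamma_add_le G hG A ((univ \ low G δ) \ U) (fun v hv => by
    rw [mem_sdiff] at hv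
    exact hdom v hv.1 hv.2)
  have h2 : ((univ \ low G δ) \ U).card + U.card = (univ \ low G δ).card :=
    card_sdiff_add_card_eq_card hU
  have h3 : (univ \ low G δ).card + (low G δ).card = n := by
    rw [card_sdiff_add_card_eq_card (subset_univ _), card_univ, Fintype.card_fin]
  have h4 : gammaT G ≤ m + (low G δ).card + U.card := by omega
  have h5 : (gammaT G : ℝ) ≤ ((m + (low G δ).card + U.card : ℕ) : ℝ) := by exact_mod_cast h4
  push_cast at h5
  linarith

theorem dg_eq {n k : ℕ} (G : Fin k → SimpleGraph (Fin n)) (j : Fin k) (v : Fin n) :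
    dg (G j) v = ∑ w, (ad G j v w : ℝ) := by
  classical
  unfold dg
  rw [card_filter]
  push_cast
  apply sum_congr rfl
  intro w _
  by_cases h : (G j).Adj v w
  · rw [ad_one h, if_pos h]; simp
  · rw [ad_zero h, if_neg h]; simp

theorem sum_dg {n k : ℕ} {G : Fin k → SimpleGraph (Fin n)} (hG : IsFactorization G)
    (v : Fin n) : ∑ j, dg (G j) v = n - 1 := by
  simp_rw [dg_eq]
  have h := sum_deg hG v
  have h2 : ((∑ j, ∑ w, ad G j v w : ℤ) : ℝ) = ((n - 1 : ℤ) : ℝ) := by rw [h]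
  push_cast at h2
  exact h2

theorem gamma_le_card {n : ℕ} (G : SimpleGraph (Fin n)) (hG : ∀ v, ∃ w, G.Adj v w) :
    gammaT G ≤ n := by
  have := gamma_add_le G hG ∅ ∅ (fun v hv => absurd hv (notMem_empty v))
  simpa using this

theorem prod_le_pow {n k : ℕ} {G : Fin k → SimpleGraph (Fin n)} (hG : IsFactorization G) :
    ∏ j, gammaT (G j) ≤ n ^ k := by
  calc ∏ j, gammaT (G j) ≤ ∏ _j : Fin k, n :=
        prod_le_prod' fun j _ => gamma_le_card (G j) (hG.mindeg j)
    _ = n ^ k := by rw [prod_const, card_univ, Fintype.card_fin]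

theorem bdd {n k : ℕ} : BddAbove {p : ℕ | ∃ G : Fin k → SimpleGraph (Fin n),
    IsFactorization G ∧ p = ∏ j, gammaT (G j)} := by
  refine ⟨n ^ k, ?_⟩
  rintro p ⟨G, hG, rfl⟩
  exact prod_le_pow hG

theorem P_le {n k : ℕ} {C : ℝ} (hC : 0 ≤ C) (h : ∀ G : Fin k → SimpleGraph (Fin n),
    IsFactorization G → ((∏ j, gammaT (G j) : ℕ) : ℝ) ≤ C) : (P n k : ℝ) ≤ C := by
  by_cases hne : {p : ℕ | ∃ G : Fin k → SimpleGraph (Fin n),
    IsFactorization G ∧ p = ∏ j, gammaT (G j)}.Nonempty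
  · obtain ⟨G, hG, hp⟩ := Nat.sSup_mem hne bdd
    have h1 : P n k = ∏ j, gammaT (G j) := hp
    rw [h1]
    exact h G hG
  · have h0 : P n k = 0 := by
      unfold P
      rw [Set.not_nonempty_iff_eq_empty.mp hne]
      simp
    rw [h0]
    simpa using hC

theorem le_P {n k : ℕ} {G : Fin k → SimpleGraph (Fin n)} (hG : IsFactorization G) :
    ∏ j, gammaT (G j) ≤ P n k := le_csSup bdd ⟨G, hG, rfl⟩

/-- the vertices which have small degree in all colours except possibly `j` -/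
noncomputable def only {n : ℕ} (G : Fin 3 → SimpleGraph (Fin n)) (δ : ℝ) (j : Fin 3) :
    Finset (Fin n) := by
  classical
  exact univ.filter fun v => ∀ i, i ≠ j → v ∈ low (G i) δ

theorem ad_nonneg {n k : ℕ} (G : Fin k → SimpleGraph (Fin n)) (j : Fin k) (v w : Fin n) :
    (0 : ℝ) ≤ (ad G j v w : ℝ) := by
  by_cases h : (G j).Adj v w
  · rw [ad_one h]; simp
  · rw [ad_zero h]; simp

theorem not_all {n : ℕ} (hn : 2 ≤ n) {G : Fin 3 → SimpleGraph (Fin n)} (hG : IsFactorization G)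
    {δ : ℝ} (hδ : δ ≤ 1 / 6) (v : Fin n) : ∃ j, v ∉ low (G j) δ := by
  by_contra hne
  push Not at hne
  have h1 := sum_dg hG v
  rw [Fin.sum_univ_three] at h1
  have h2 := (mem_low _ _ _).mp (hne 0)
  have h3 := (mem_low _ _ _).mp (hne 1)
  have h4 := (mem_low _ _ _).mp (hne 2)
  have h5 : (2 : ℝ) ≤ n := by exact_mod_cast hn
  nlinarith

theorem pairs {n : ℕ} (hn : 2 ≤ n) {G : Fin 3 → SimpleGraph (Fin n)} (hG : IsFactorization G)
    {δ : ℝ} (hδ0 : 0 ≤ δ) (hδ : δ ≤ 1 / 6) (j : Fin 3) :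
    ((only G δ j).card : ℝ) * ((low (G j) δ).card : ℝ) ≤ 3 * δ * n ^ 2 := by
  classical
  have hmem : ∀ v, v ∈ only G δ j ↔ ∀ i, i ≠ j → v ∈ low (G i) δ := by
    intro v
    unfold only
    rw [mem_filter]
    exact ⟨fun h => h.2, fun h => ⟨mem_univ _, h⟩⟩
  have h1 : ∀ v ∈ only G δ j, ∀ w ∈ low (G j) δ,
      (1 : ℝ) ≤ (∑ i ∈ univ.erase j, (ad G i v w : ℝ)) + (ad G j w v : ℝ) := by
    intro v hv w hw
    have hne : v ≠ w := by
      rintro rfl
      obtain ⟨i, hi⟩ := not_all hn hG hδ v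
      by_cases hij : i = j
      · rw [hij] at hi; exact hi hw
      · exact hi ((hmem v).mp hv i hij)
    obtain ⟨c, hc⟩ := hG.union v w hne
    by_cases hcj : c = j
    · subst hcj
      have h2 : (ad G c w v : ℝ) = 1 := by rw [ad_one hc.symm]; simp
      have h3 : (0 : ℝ) ≤ ∑ i ∈ univ.erase c, (ad G i v w : ℝ) :=
        sum_nonneg fun i _ => ad_nonneg G i v w
      linarith
    · have h2 : (ad G c v w : ℝ) = 1 := by rw [ad_one hc]; simp
      have h3 : (ad G c v w : ℝ) ≤ ∑ i ∈ univ.erase j, (ad G i v w : ℝ) :=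
        single_le_sum (f := fun i => (ad G i v w : ℝ)) (fun i _ => ad_nonneg G i v w)
          (mem_erase.mpr ⟨hcj, mem_univ _⟩)
      have h4 := ad_nonneg G j w v
      linarith
  have h2 : ((only G δ j).card : ℝ) * ((low (G j) δ).card : ℝ) ≤
      ∑ v ∈ only G δ j, ∑ w ∈ low (G j) δ,
        ((∑ i ∈ univ.erase j, (ad G i v w : ℝ)) + (ad G j w v : ℝ)) := by
    calc ((only G δ j).card : ℝ) * ((low (G j) δ).card : ℝ)
        = ∑ v ∈ only G δ j, ∑ w ∈ low (G j) δ, (1 : ℝ) := by simp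
      _ ≤ _ := sum_le_sum fun v hv => sum_le_sum fun w hw => h1 v hv w hw
  have hcard : ∀ S : Finset (Fin n), (S.card : ℝ) ≤ n := by
    intro S
    have := card_le_univ S
    rw [Fintype.card_fin] at this
    exact_mod_cast this
  have h3 : ∑ v ∈ only G δ j, ∑ w ∈ low (G j) δ, (∑ i ∈ univ.erase j, (ad G i v w : ℝ)) ≤
      2 * δ * n ^ 2 := by
    have h4 : ∀ v ∈ only G δ j,
        ∑ w ∈ low (G j) δ, (∑ i ∈ univ.erase j, (ad G i v w : ℝ)) ≤ 2 * (δ * n) := by
      intro v hv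
      rw [sum_comm]
      have h5 : ∀ i ∈ univ.erase j, ∑ w ∈ low (G j) δ, (ad G i v w : ℝ) ≤ δ * n := by
        intro i hi
        have h6 := (mem_low _ _ _).mp ((hmem v).mp hv i (mem_erase.mp hi).1)
        rw [dg_eq] at h6
        have h7 : ∑ w ∈ low (G j) δ, (ad G i v w : ℝ) ≤ ∑ w, (ad G i v w : ℝ) :=
          sum_le_sum_of_subset_of_nonneg (subset_univ _) fun w _ _ => ad_nonneg G i v w
        linarith
      calc ∑ i ∈ univ.erase j, ∑ w ∈ low (G j) δ, (ad G i v w : ℝ)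
          ≤ ∑ i ∈ univ.erase j, δ * n := sum_le_sum h5
        _ = 2 * (δ * n) := by
          rw [sum_const, card_erase_of_mem (mem_univ _), card_univ, Fintype.card_fin,
            nsmul_eq_mul]
          norm_num
    calc ∑ v ∈ only G δ j, ∑ w ∈ low (G j) δ, (∑ i ∈ univ.erase j, (ad G i v w : ℝ))
        ≤ ∑ v ∈ only G δ j, 2 * (δ * n) := sum_le_sum h4
      _ = ((only G δ j).card : ℝ) * (2 * (δ * n)) := by rw [sum_const, nsmul_eq_mul]
      _ ≤ n * (2 * (δ * n)) := mul_le_mul_of_nonneg_right (hcard _) (by positivity)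
      _ = 2 * δ * n ^ 2 := by ring
  have h4 : ∑ v ∈ only G δ j, ∑ w ∈ low (G j) δ, (ad G j w v : ℝ) ≤ δ * n ^ 2 := by
    rw [sum_comm]
    have h5 : ∀ w ∈ low (G j) δ, ∑ v ∈ only G δ j, (ad G j w v : ℝ) ≤ δ * n := by
      intro w hw
      have h6 := (mem_low _ _ _).mp hw
      rw [dg_eq] at h6
      have h7 : ∑ v ∈ only G δ j, (ad G j w v : ℝ) ≤ ∑ v, (ad G j w v : ℝ) :=
        sum_le_sum_of_subset_of_nonneg (subset_univ _) fun v _ _ => ad_nonneg G j w v
      linarith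
    calc ∑ w ∈ low (G j) δ, ∑ v ∈ only G δ j, (ad G j w v : ℝ)
        ≤ ∑ w ∈ low (G j) δ, δ * n := sum_le_sum h5
      _ = ((low (G j) δ).card : ℝ) * (δ * n) := by rw [sum_const, nsmul_eq_mul]
      _ ≤ n * (δ * n) := mul_le_mul_of_nonneg_right (hcard _) (by positivity)
      _ = δ * n ^ 2 := by ring
  simp_rw [sum_add_distrib] at h2
  linarith

theorem low_sum {n : ℕ} (hn : 2 ≤ n) {G : Fin 3 → SimpleGraph (Fin n)} (hG : IsFactorization G)
    {δ : ℝ} (hδ : δ ≤ 1 / 6) :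
    (low (G 0) δ).card + (low (G 1) δ).card + (low (G 2) δ).card ≤
      n + ((only G δ 0).card + (only G δ 1).card + (only G δ 2).card) := by
  classical
  have hc : ∀ S : Finset (Fin n), S.card = ∑ v, if v ∈ S then 1 else 0 := by
    intro S
    rw [← card_filter]
    congr 1
    ext v
    simp
  have hmem : ∀ j v, v ∈ only G δ j ↔ ∀ i, i ≠ j → v ∈ low (G i) δ := by
    intro j v
    unfold only
    rw [mem_filter]
    exact ⟨fun h => h.2, fun h => ⟨mem_univ _, h⟩⟩
  rw [hc (low (G 0) δ), hc (low (G 1) δ), hc (low (G 2) δ), hc (only G δ 0), hc (only G δ 1),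
    hc (only G δ 2)]
  suffices hp : ∑ v : Fin n, ((if v ∈ low (G 0) δ then 1 else 0) +
      (if v ∈ low (G 1) δ then 1 else 0) + (if v ∈ low (G 2) δ then 1 else 0)) ≤
      ∑ v : Fin n, (1 + ((if v ∈ only G δ 0 then 1 else 0) +
      (if v ∈ only G δ 1 then 1 else 0) + (if v ∈ only G δ 2 then 1 else 0))) by
    simp only [sum_add_distrib] at hp
    rw [show (∑ _v : Fin n, 1) = n by simp] at hp
    exact hp
  apply sum_le_sum
  intro v _
  have h0 : v ∈ only G δ 0 ↔ v ∈ low (G 1) δ ∧ v ∈ low (G 2) δ := by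
    rw [hmem]
    constructor
    · intro h; exact ⟨h 1 (by decide), h 2 (by decide)⟩
    · rintro ⟨h1, h2⟩ i hi
      fin_cases i
      · exact absurd rfl hi
      · exact h1
      · exact h2
  have h1 : v ∈ only G δ 1 ↔ v ∈ low (G 0) δ ∧ v ∈ low (G 2) δ := by
    rw [hmem]
    constructor
    · intro h; exact ⟨h 0 (by decide), h 2 (by decide)⟩
    · rintro ⟨h1, h2⟩ i hi
      fin_cases i
      · exact h1
      · exact absurd rfl hi
      · exact h2
  have h2 : v ∈ only G δ 2 ↔ v ∈ low (G 0) δ ∧ v ∈ low (G 1) δ := by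
    rw [hmem]
    constructor
    · intro h; exact ⟨h 0 (by decide), h 1 (by decide)⟩
    · rintro ⟨h1, h2⟩ i hi
      fin_cases i
      · exact h1
      · exact h2
      · exact absurd rfl hi
  obtain ⟨j, hj⟩ := not_all hn hG hδ v
  have h3 : ¬ (v ∈ low (G 0) δ ∧ v ∈ low (G 1) δ ∧ v ∈ low (G 2) δ) := by
    rintro ⟨a, b, c⟩
    fin_cases j
    · exact hj a
    · exact hj b
    · exact hj c
  by_cases a : v ∈ low (G 0) δ <;> by_cases b : v ∈ low (G 1) δ <;>
    by_cases c : v ∈ low (G 2) δ <;> simp [h0, h1, h2, a, b, c] at h3 ⊢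

theorem upper {τ : ℝ} (hτ0 : 0 < τ) (hτ : τ ≤ 1 / 27) :
    ∃ n0 : ℕ, ∀ n, n0 ≤ n → (P n 3 : ℝ) ≤ (1 / 3 + τ) ^ 3 * n ^ 3 := by
  set s : ℝ := τ / 3 with hs
  set δ : ℝ := s ^ 2 / 3 with hδ
  have hs0 : 0 < s := by positivity
  have hδ0 : 0 < δ := by positivity
  have hs1 : s ≤ 1 / 81 := by rw [hs]; linarith
  have hδ1 : δ ≤ 1 / 6 := by rw [hδ]; nlinarith
  obtain ⟨m, hm⟩ := exists_pow_lt_of_lt_one hs0 (show 1 - δ < 1 by linarith)
  obtain ⟨n1, hn1⟩ := exists_nat_gt ((m : ℝ) / s)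
  refine ⟨max n1 2, fun n hn => ?_⟩
  have hn2 : 2 ≤ n := (le_max_right _ _).trans hn
  have hn1' : (n1 : ℝ) ≤ n := by exact_mod_cast (le_max_left _ _).trans hn
  have hm' : (m : ℝ) ≤ s * n := by
    have h1 : (m : ℝ) / s ≤ n := (hn1.le).trans hn1'
    rw [div_le_iff₀ hs0] at h1
    linarith
  have hn0 : (0 : ℝ) < n := by positivity
  apply P_le (by positivity)
  intro G hG
  have hγ : ∀ j, (gammaT (G j) : ℝ) ≤ ((low (G j) δ).card : ℝ) + 2 * (s * n) := by
    intro j
    have h1 := gamma_le_low (by omega) (G j) (hG.mindeg j) δ (by linarith) m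
    have h2 : (1 - δ) ^ m * (n : ℝ) ≤ s * n := mul_le_mul_of_nonneg_right hm.le hn0.le
    linarith
  have hγn : ∀ j, (gammaT (G j) : ℝ) ≤ n := by
    intro j
    exact_mod_cast gamma_le_card (G j) (hG.mindeg j)
  by_cases hcase : ∃ j, s * n ≤ ((only G δ j).card : ℝ)
  · obtain ⟨j, hj⟩ := hcase
    have h1 := pairs hn2 hG hδ0.le hδ1 j
    have h2 : ((low (G j) δ).card : ℝ) ≤ s * n := by
      have h3 : s * n * ((low (G j) δ).card : ℝ) ≤ s * n * (s * n) := by
        calc s * n * ((low (G j) δ).card : ℝ)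
            ≤ ((only G δ j).card : ℝ) * ((low (G j) δ).card : ℝ) :=
              mul_le_mul_of_nonneg_right hj (by positivity)
          _ ≤ 3 * δ * n ^ 2 := h1
          _ = s * n * (s * n) := by rw [hδ]; ring
      exact le_of_mul_le_mul_left h3 (by positivity)
    have h4 : (gammaT (G j) : ℝ) ≤ τ * n := by
      have := hγ j
      have h5 : τ = 3 * s := by rw [hs]; ring
      rw [h5]
      linarith
    have h5 : ((∏ i, gammaT (G i) : ℕ) : ℝ) ≤ τ * n * n ^ 2 := by
      push_cast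
      rw [← mul_prod_erase univ _ (mem_univ j)]
      apply mul_le_mul h4 _ (prod_nonneg fun i _ => by positivity) (by positivity)
      calc ∏ i ∈ univ.erase j, (gammaT (G i) : ℝ) ≤ ∏ i ∈ univ.erase j, (n : ℝ) :=
            prod_le_prod (fun i _ => by positivity) fun i _ => hγn i
        _ = n ^ 2 := by
            rw [prod_const, card_erase_of_mem (mem_univ _), card_univ, Fintype.card_fin]
    have h6 : τ ≤ (1 / 3 + τ) ^ 3 := by nlinarith [hτ0, hτ, sq_nonneg τ]
    calc ((∏ i, gammaT (G i) : ℕ) : ℝ) ≤ τ * n * n ^ 2 := h5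
      _ = τ * n ^ 3 := by ring
      _ ≤ (1 / 3 + τ) ^ 3 * n ^ 3 := mul_le_mul_of_nonneg_right h6 (by positivity)
  · push Not at hcase
    have h1 := low_sum hn2 hG hδ1
    have h2 : ((low (G 0) δ).card : ℝ) + ((low (G 1) δ).card : ℝ) + ((low (G 2) δ).card : ℝ) ≤
        n + (((only G δ 0).card : ℝ) + ((only G δ 1).card : ℝ) + ((only G δ 2).card : ℝ)) := by
      exact_mod_cast h1
    have h3 : (∑ j, (gammaT (G j) : ℝ)) ≤ n * (1 + 3 * τ) := by
      rw [Fin.sum_univ_three]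
      have a0 := hγ 0
      have a1 := hγ 1
      have a2 := hγ 2
      have b0 := hcase 0
      have b1 := hcase 1
      have b2 := hcase 2
      have h5 : τ = 3 * s := by rw [hs]; ring
      rw [h5]
      nlinarith
    have h4 := amgm (by norm_num : 0 < 3) (fun j => (gammaT (G j) : ℝ)) fun j => by positivity
    have h5 : (0 : ℝ) ≤ (∑ j, (gammaT (G j) : ℝ)) / (3 : ℕ) := by positivity
    have h6 : (∑ j, (gammaT (G j) : ℝ)) / (3 : ℕ) ≤ (1 / 3 + τ) * n := by
      push_cast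
      linarith
    push_cast
    calc ∏ j, (gammaT (G j) : ℝ) ≤ ((∑ j, (gammaT (G j) : ℝ)) / (3 : ℕ)) ^ 3 := h4
      _ ≤ ((1 / 3 + τ) * n) ^ 3 := pow_le_pow_left₀ h5 h6 3
      _ = (1 / 3 + τ) ^ 3 * n ^ 3 := by ring

/-! ## The construction -/

/-- the class of a vertex -/
def cls (m x : ℕ) : Fin 4 :=
  if x < 2 * m then 0 else if x < 4 * m then 1 else if x < 6 * m then 2 else 3

/-- colours between and inside the classes -/
def tab : Fin 4 → Fin 4 → Fin 3 := ![![1, 2, 1, 1], ![2, 2, 0, 2], ![1, 0, 0, 0], ![1, 2, 0, 0]]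

/-- the colour in which a class has small degrees -/
def toC : Fin 4 → Fin 3 := ![0, 1, 2, 0]

/-- the colour of a pair -/
def col (m x y : ℕ) : Fin 3 :=
  if cls m x = cls m y ∧ cls m x ≠ 3 ∧ x / 2 = y / 2 then toC (cls m x)
  else tab (cls m x) (cls m y)

theorem tab_symm : ∀ a b, tab a b = tab b a := by decide

theorem tab_ne : ∀ a b, a ≠ 3 → tab a b ≠ toC a := by decide

theorem tab_ex : ∀ a j, ¬ (a ≠ 3 ∧ toC a = j) → ∃ b, b ≠ 3 ∧ b ≠ a ∧ tab a b = j := by decide

theorem col_symm (m x y : ℕ) : col m x y = col m y x := by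
  unfold col
  by_cases h : cls m x = cls m y ∧ cls m x ≠ 3 ∧ x / 2 = y / 2
  · rw [if_pos h, if_pos ⟨h.1.symm, h.1 ▸ h.2.1, h.2.2.symm⟩, h.1]
  · have h2 : ¬ (cls m y = cls m x ∧ cls m y ≠ 3 ∧ y / 2 = x / 2) := by
      rintro ⟨a, b, c⟩
      exact h ⟨a.symm, a ▸ b, c.symm⟩
    rw [if_neg h, if_neg h2, tab_symm]

/-- the factors -/
def GC (n m : ℕ) (j : Fin 3) : SimpleGraph (Fin n) where
  Adj u v := u ≠ v ∧ col m u v = j
  symm := ⟨fun u v h => ⟨h.1.symm, by rw [col_symm]; exact h.2⟩⟩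
  loopless := ⟨fun u h => h.1 rfl⟩

/-- the partner -/
def par (x : ℕ) : ℕ := if x % 2 = 0 then x + 1 else x - 1

theorem par_spec (x : ℕ) : par x ≠ x ∧ par x / 2 = x / 2 := by
  unfold par
  split_ifs with h <;> omega

theorem cls_ne_three {m x : ℕ} : cls m x ≠ 3 ↔ x < 6 * m := by
  unfold cls
  split_ifs with h1 h2 h3
  · simp; omega
  · simp; omega
  · simp; omega
  · simp; omega

theorem cls_par {m x : ℕ} (hx : x < 6 * m) : cls m (par x) = cls m x ∧ par x < 6 * m := by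
  have hp := par_spec x
  have h6 : par x < 6 * m := by omega
  refine ⟨?_, h6⟩
  unfold cls
  by_cases h1 : x < 2 * m
  · rw [if_pos h1, if_pos (by omega)]
  · rw [if_neg h1, if_neg (by omega : ¬ par x < 2 * m)]
    by_cases h2 : x < 4 * m
    · rw [if_pos h2, if_pos (by omega)]
    · rw [if_neg h2, if_neg (by omega : ¬ par x < 4 * m), if_pos hx, if_pos h6]

/-- a vertex of each class -/
def rep (m : ℕ) : Fin 4 → ℕ := ![0, 2 * m, 4 * m, 0]

theorem cls_rep {m : ℕ} (hm : 0 < m) (b : Fin 4) (hb : b ≠ 3) :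
    cls m (rep m b) = b ∧ rep m b < 6 * m :=
  match b, hb with
  | 0, _ => ⟨by show cls m 0 = 0; unfold cls; rw [if_pos (by omega)],
      by show 0 < 6 * m; omega⟩
  | 1, _ => ⟨by show cls m (2 * m) = 1; unfold cls; rw [if_neg (by omega), if_pos (by omega)],
      by show 2 * m < 6 * m; omega⟩
  | 2, _ => ⟨by
      show cls m (4 * m) = 2
      unfold cls
      rw [if_neg (by omega), if_neg (by omega), if_pos (by omega)],
      by show 4 * m < 6 * m; omega⟩
  | 3, h => absurd rfl h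

theorem cls_class {m : ℕ} (j : Fin 3) (r : ℕ) (hr : r < 2 * m) :
    cls m (2 * m * j + r) ≠ 3 ∧ toC (cls m (2 * m * j + r)) = j :=
  match j with
  | 0 => by
      have h : cls m (2 * m * 0 + r) = 0 := by unfold cls; rw [if_pos (by omega)]
      show cls m (2 * m * 0 + r) ≠ 3 ∧ toC (cls m (2 * m * 0 + r)) = 0
      rw [h]
      decide
  | 1 => by
      have h : cls m (2 * m * 1 + r) = 1 := by
        unfold cls; rw [if_neg (by omega), if_pos (by omega)]
      show cls m (2 * m * 1 + r) ≠ 3 ∧ toC (cls m (2 * m * 1 + r)) = 1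
      rw [h]
      decide
  | 2 => by
      have h : cls m (2 * m * 2 + r) = 2 := by
        unfold cls; rw [if_neg (by omega), if_neg (by omega), if_pos (by omega)]
      show cls m (2 * m * 2 + r) ≠ 3 ∧ toC (cls m (2 * m * 2 + r)) = 2
      rw [h]
      decide

theorem isFactorization {n m : ℕ} (hm : 0 < m) (hn : 6 * m ≤ n) : IsFactorization (GC n m) where
  disj i j hij u v h h' := hij (h.2.symm.trans h'.2)
  union u v huv := ⟨col m u v, huv, rfl⟩
  mindeg j v := by
    by_cases h : cls m v ≠ 3 ∧ toC (cls m v) = j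
    · have h1 := cls_ne_three.mp h.1
      obtain ⟨h2, h3⟩ := cls_par h1
      have h4 := par_spec v
      refine ⟨⟨par v, by omega⟩, fun h5 => h4.1 ?_, ?_⟩
      · exact (congrArg Fin.val h5).symm
      · show col m v (par v) = j
        unfold col
        rw [if_pos ⟨h2.symm, h.1, h4.2.symm⟩]
        exact h.2
    · obtain ⟨b, hb3, hba, htab⟩ := tab_ex _ _ h
      obtain ⟨h2, h3⟩ := cls_rep hm b hb3
      refine ⟨⟨rep m b, by omega⟩, fun h5 => ?_, ?_⟩
      · have h6 : (v : ℕ) = rep m b := congrArg Fin.val h5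
        rw [← h6] at h2
        exact hba h2.symm
      · show col m v (rep m b) = j
        unfold col
        rw [if_neg fun h5 => hba (by rw [← h2]; exact h5.1.symm), h2]
        exact htab

theorem gamma_ge {n m : ℕ} (hm : 0 < m) (hn : 6 * m ≤ n) (j : Fin 3) :
    2 * m ≤ gammaT (GC n m j) := by
  classical
  have hne : {t | ∃ S : Finset (Fin n), S.card = t ∧ IsTDS (GC n m j) S}.Nonempty :=
    ⟨_, univ, rfl, fun v => by
      obtain ⟨w, hw⟩ := (isFactorization hm hn).mindeg j v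
      exact ⟨w, mem_univ _, hw⟩⟩
  obtain ⟨S, hS, hT⟩ := Nat.sInf_mem hne
  have hS' : S.card = gammaT (GC n m j) := hS
  rw [← hS']
  have hj : ∀ r, r < 2 * m → cls m (2 * m * j + r) ≠ 3 ∧ toC (cls m (2 * m * j + r)) = j :=
    fun r hr => cls_class j r hr
  have hlt : ∀ r, r < 2 * m → 2 * m * j + r < 6 * m := by
    intro r hr
    exact cls_ne_three.mp (hj r hr).1
  have hmem : ∀ r (hr : r < 2 * m), (⟨2 * m * j + r, (hlt r hr).trans_le hn⟩ : Fin n) ∈ S := by
    intro r hr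
    set x := 2 * m * (j : ℕ) + r with hx
    have hx6 := hlt r hr
    obtain ⟨h2, h3⟩ := cls_par hx6
    have h4 := par_spec x
    obtain ⟨w, hwS, hwadj⟩ := hT ⟨par x, by omega⟩
    have h5 : col m (par x) w = j := hwadj.2
    have h6 : (⟨par x, by omega⟩ : Fin n) ≠ w := hwadj.1
    unfold col at h5
    by_cases hc : cls m (par x) = cls m w ∧ cls m (par x) ≠ 3 ∧ par x / 2 = (w : ℕ) / 2
    · have h7 : (w : ℕ) ≠ par x := fun h8 => h6 (Fin.ext h8.symm)
      have h8 : (w : ℕ) = x := by omega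
      have h9 : w = ⟨x, hx6.trans_le hn⟩ := Fin.ext h8
      rw [← h9]
      exact hwS
    · rw [if_neg hc] at h5
      have h7 := tab_ne (cls m (par x)) (cls m w) (by rw [h2]; exact (hj r hr).1)
      rw [h5, h2, (hj r hr).2] at h7
      exact absurd rfl h7
  have hinj := Finset.card_le_card_of_injOn (s := (univ : Finset (Fin (2 * m)))) (t := S)
    (fun r => (⟨2 * m * j + r, (hlt r r.2).trans_le hn⟩ : Fin n)) (fun r _ => hmem r r.2)
    (fun r _ r' _ h => by
      have h1 := congrArg Fin.val h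
      simp only at h1
      exact Fin.ext (by omega))
  rwa [card_univ, Fintype.card_fin] at hinj

theorem lower {n : ℕ} (hn : 6 ≤ n) : (2 * (n / 6)) ^ 3 ≤ P n 3 := by
  have hm : 0 < n / 6 := by omega
  have h6 : 6 * (n / 6) ≤ n := Nat.mul_div_le n 6
  refine le_trans ?_ (le_P (isFactorization hm h6))
  calc (2 * (n / 6)) ^ 3 = ∏ _j : Fin 3, 2 * (n / 6) := by
        rw [prod_const, card_univ, Fintype.card_fin]
    _ ≤ ∏ j, gammaT (GC n (n / 6) j) := prod_le_prod' fun j _ => gamma_ge hm h6 j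

/-- **`P(n,3) ~ n³/27`.** -/
theorem result : Filter.Tendsto (fun n : ℕ => (P n 3 : ℝ) / (n : ℝ) ^ 3) Filter.atTop
    (nhds (1 / 27)) := by
  rw [tendsto_order]
  constructor
  · intro a ha
    have h1 : Filter.Tendsto (fun n : ℕ => ((1 : ℝ) / 3 - 5 / 3 * (1 / (n : ℝ))) ^ 3)
        Filter.atTop (nhds ((1 / 3 - 5 / 3 * 0) ^ 3)) :=
      (tendsto_const_nhds.sub (tendsto_const_nhds.mul tendsto_one_div_atTop_nhds_zero_nat)).pow 3
    have h2 : a < ((1 : ℝ) / 3 - 5 / 3 * 0) ^ 3 := by norm_num at ha ⊢; exact ha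
    filter_upwards [h1.eventually (lt_mem_nhds h2), Filter.eventually_ge_atTop 6] with n hn hn6
    have hn0 : (0 : ℝ) < n := by exact_mod_cast (by omega : 0 < n)
    have h3 : ((2 * (n / 6) : ℕ) : ℝ) ^ 3 ≤ P n 3 := by exact_mod_cast lower hn6
    have h4 : ((n : ℝ) - 5) / 3 ≤ ((2 * (n / 6) : ℕ) : ℝ) := by
      have h5 : n ≤ 6 * (n / 6) + 5 := by omega
      have h6 : (n : ℝ) ≤ 6 * ((n / 6 : ℕ) : ℝ) + 5 := by exact_mod_cast h5
      push_cast
      linarith
    have h7 : (0 : ℝ) ≤ ((n : ℝ) - 5) / 3 := by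
      have : (6 : ℝ) ≤ n := by exact_mod_cast hn6
      linarith
    have h8 : (((n : ℝ) - 5) / 3) ^ 3 ≤ P n 3 := (pow_le_pow_left₀ h7 h4 3).trans h3
    have h9 : ((1 : ℝ) / 3 - 5 / 3 * (1 / (n : ℝ))) ^ 3 = (((n : ℝ) - 5) / 3) ^ 3 / (n : ℝ) ^ 3 := by
      rw [← div_pow]
      congr 1
      field_simp
    rw [h9] at hn
    exact hn.trans_le (div_le_div_of_nonneg_right h8 (by positivity))
  · intro b hb
    have h1 : Filter.Tendsto (fun τ : ℝ => ((1 : ℝ) / 3 + τ) ^ 3) (nhds 0)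
        (nhds ((1 / 3 + 0) ^ 3)) :=
      (tendsto_const_nhds.add Filter.tendsto_id).pow 3
    have h2 : ((1 : ℝ) / 3 + 0) ^ 3 < b := by norm_num at hb ⊢; exact hb
    have h3 := h1.eventually (gt_mem_nhds h2)
    rw [Metric.eventually_nhds_iff] at h3
    obtain ⟨ε, hε, h4⟩ := h3
    set τ := min (1 / 27 : ℝ) (ε / 2) with hτ
    have hτ0 : 0 < τ := lt_min (by norm_num) (by linarith)
    have hτ1 : τ ≤ 1 / 27 := min_le_left _ _
    have hτ2 : τ ≤ ε / 2 := min_le_right _ _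
    have h5 : ((1 : ℝ) / 3 + τ) ^ 3 < b := h4 (by
      rw [Real.dist_eq, sub_zero, abs_of_pos hτ0]
      linarith)
    obtain ⟨n0, hn0⟩ := upper hτ0 hτ1
    filter_upwards [Filter.eventually_ge_atTop n0, Filter.eventually_gt_atTop 0] with n hn hnpos
    have hn1 : (0 : ℝ) < (n : ℝ) ^ 3 := by
      have : (0 : ℝ) < n := by exact_mod_cast hnpos
      positivity
    rw [div_lt_iff₀ hn1]
    exact (hn0 n hn).trans_lt (mul_lt_mul_of_pos_right h5 hn1)

end Pool.Agent.Results.MP_1ce445_co.ThreeFactorsLimit
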